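import Pool.Agent.helper7.EP.SpecL
import Pool.Agent.helper7.EP.SpecA
import Pool.Agent.helper83.OD.Spec

/-!
# Project og: (MP_ebc808_nt): golden ratio exponent for the odd values of the partition function

**Theorem** (RES). For every `ε > 0` and every large `X` there is `x` in `[X^(1/10), X]` with
`#{n ≤ x : p(n) odd} ≥ x^((1+√5)/4 - ε)` (exponent `0.809...`).

Idea. Suppose that `sO x ≤ x^β + X^(1/10)` for all `x ≤ X`, `β < (1+√5)/4`. (1) The identity ID16 of project od: with the primes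
`p, M = 5 mod 24` says that for every pair one of the entries `JG (7p) (M - 16u²)`, `JG (7p - 16u²) M` is `1`. The second kind cannot be
frequent, so almost all rows `r = 7p ≤ 14 K` have at least `Z^(1/2-δ)` odd entries `m ≤ 2Z`. (2) For a row `r` with `τ` odd entries
`m ≤ Y`, `A = 2^a ≈ max(1, τ²/Y)`: the numbers `M = A m + 3 u²` have mostly exactly one such representation, so by IDK one of the entries
`JG (r A - 3w²) M` is `1`. Every such entry is obtained from at most `√(K/A) + 1` rows. This gives many odd values below `K A² Y`. (3) If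
`K = Y^(1/√5)` this contradicts the assumption for every possible size of `τ`.

Module `XX`: file `Pool/Agent/<seat>/OG/XX.lean`, `import Pool.Agent.helper82.OG.Spec`, `set_option autoImplicit false`,
namespace `Pool.Agent.OG`, `open Pool.Agent.EP`, theorem `XX (hYY : YY_stmt) ... : XX_stmt` (hypotheses: other statements of this
file, `IDK_stmt`, `JN_stmt`, `SQ_stmt` of `Pool.Agent.EP`, `OD.ID16_stmt`, `OD.R5_stmt`, `OD.R11_stmt`), auxiliary lemmas prefixed `XX_`, no sorry, no double quotes.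
-/

set_option autoImplicit false

open Finset

noncomputable section

namespace Pool.Agent.OG

open Pool.Agent.EP

/-! ### Definitions -/

/-- The number of `n ≤ X` with `p(n)` odd. -/
def sO (X : ℕ) : ℕ := #{n ∈ range (X + 1) | Odd (Fintype.card (Nat.Partition n))}

/-- The primes of `(y, 2y]` in the class `5` modulo `24`. -/
def P5 (y : ℕ) : Finset ℕ := {p ∈ Ioc y (2 * y) | p.Prime ∧ p % 24 = 5}

/-- The odd entries `m ≤ Y` of the row `r`. -/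
def TT (r Y : ℕ) : Finset ℕ := {m ∈ Ioc 0 Y | JG ac r (m : ℤ) ≠ 0}

/-- The odd entries of the rectangle `J × L`. -/
def PQ (J L : ℕ) : Finset (ℕ × ℕ) := {x ∈ Ioc 0 J ×ˢ Ioc 0 L | JG ac x.1 (x.2 : ℤ) ≠ 0}

/-- The representations `2^a m + 3 u² = M`, `u` odd, `m` an odd entry of the row `r`. -/
def Rp (a r M : ℕ) : Finset (ℕ × ℕ) :=
  {x ∈ Ioc 0 M ×ˢ Ioc 0 M | x.2 % 2 = 1 ∧ 2 ^ a * x.1 + 3 * x.2 ^ 2 = M ∧ JG ac r (x.1 : ℤ) ≠ 0}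

/-- The inhomogeneous term of the identity is `1`. -/
def Ih (a r M : ℕ) : Prop := ∃ u : ℕ, u % 2 = 1 ∧ 3 * u ^ 2 = M + 2 ^ a * r

open Classical in
/-- The good columns `M ≤ N` for the row `r`: exactly one representation, no inhomogeneous term. -/
def Gd (a r N : ℕ) : Finset ℕ := {M ∈ Ioc 0 N | #(Rp a r M) = 1 ∧ ¬ Ih a r M}

/-- Hypothesis: few odd values below `X`. -/
def Few (β B : ℝ) (X : ℕ) : Prop := ∀ x : ℕ, x ≤ X → (sO x : ℝ) ≤ (x : ℝ) ^ β + B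

/-- `D` is a bound for the divisor function up to `N`. -/
def DvB (D N : ℕ) : Prop := ∀ k : ℕ, 0 < k → k ≤ N → #k.divisors ≤ D

/-! ### From entries to values -/

/-- **PAR** (medium, 120 lines). The number of odd entries of a rectangle. Proof. `(j, M) ∈ PQ J L`: `JG ac j M = ∑_{d ∣ j, d ∣ M} ac (j M/d²)` is not `0`,
so there is `d ∣ j`, `d ∣ M` (`d > 0`) with `ac (j M/d²) ≠ 0`, i.e. `j M = d² (24 n - 1)`, `n ≥ 1`, `p(n)` odd (definition of `ac`: `N % 24 = 23` and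
`pp ((N+1)/24) ≠ 0`, `N = jM/d² > 0`). `n ≤ 24 n - 1 = j M/d² ≤ J L/d²`, so `n ≤ J * L / d^2`, `d ≤ j ≤ J`. The triple `(d, n, e)`, `e = j/d`, is a divisor `e` of
`24 n - 1 = (j/d) (M/d)`, determines `(j, M)`; and `0 < 24 n - 1 ≤ J L`, so there are at most `D` values of `e` for every `(d, n)`. -/
def PAR_stmt : Prop := ∀ J L D : ℕ, DvB D (J * L) → #(PQ J L) ≤ ∑ d ∈ Ioc 0 J, D * sO (J * L / d ^ 2)

/-- **PRB** (short, 80 lines, real analysis; PAR). Proof. PAR; `J * L / d ^ 2 ≤ J L ≤ X`, so `sO (J L/d²) ≤ (J L/d²)^β + B ≤ (J L)^β d^(-3/2) + B` (`2β ≥ 3/2`, `d ≥ 1`; the natural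
quotient is at most the real one; `x ↦ x^β` is monotone), and `∑_{d ≤ J} d^(-3/2) ≤ 1 + ∑_{d ≥ 2} (2/√(d-1) - 2/√d) ≤ 3` (`d^(-3/2) ≤ 2/√(d-1) - 2/√d`). -/
def PRB_stmt : Prop := ∀ (J L D X : ℕ) (β B : ℝ), 3 / 4 ≤ β → β ≤ 1 → 0 ≤ B → Few β B X → J * L ≤ X →
  DvB D (J * L) → (#(PQ J L) : ℝ) ≤ D * (4 * ((J : ℝ) * L) ^ β + J * B)

/-! ### The identity -/

open Classical in
/-- **LFT** (medium, 110 lines; JN). The left side of IDK. Proof. For `u ∈ us a r M` put `M' = (M - 3u²)/2^a` (exact). `M' < 0`: by JN the term is `1` iff `M' = -r`, i.e.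
`3u² = M + 2^a r`; there is such a `u ∈ us` iff `Ih a r M` (`u ≤ 3u² = M + 2^a r`, `2^a ∣ M - 3u²`), and it is unique. `M' = 0`: `JG ac r 0` is a sum of values
`ac 0 = 0` (`0 % 24 ≠ 23`). `M' > 0`: the term is `0` or `1`; it is not `0` iff `(M', u) ∈ Rp a r M` (`2^a M' + 3u² = M`, `M' ≤ M`, `u ≤ M`); conversely
`(m, u) ∈ Rp` gives `u ∈ us a r M`, `(M - 3u²)/2^a = m`. (An element of `ZMod 2` which is not `0` is `1`.) -/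
def LFT_stmt : Prop := ∀ a r M : ℕ, 0 < r → 0 < M →
  ∑ u ∈ us a r (M : ℤ), JG ac r (((M : ℤ) - 3 * (u : ℤ) ^ 2) / 2 ^ a) =
    ((#(Rp a r M) : ℕ) : ZMod 2) + if Ih a r M then 1 else 0

/-- **ODI** (short, 40 lines; IDK of Pool/Agent/helper7/EP/SpecA.lean, LFT). Proof. By LFT the left side of IDK is `1`, so some term of the right side is not `0`
(`r > 0` as it is prime to `6`). -/
def ODI_stmt : Prop := ∀ a r M : ℕ, 2 ≤ a → r.Coprime 6 → 0 < M → #(Rp a r M) = 1 → ¬ Ih a r M →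
  ∃ w ∈ ws (r * 2 ^ a), JG ac (r * 2 ^ a - 3 * w ^ 2) (M : ℤ) ≠ 0

/-- **COL** (short, 50 lines). Collisions. Proof. `c = 3 (x.2 - x.1)(x.2 + x.1)`, `x.2 > x.1`. So `e = x.2 - x.1` is a divisor of `c`, and it determines
`x.1 + x.2 = c/(3e)`, hence `x`. -/
def COL_stmt : Prop := ∀ c V : ℕ, 0 < c →
  #{x ∈ Ioc 0 V ×ˢ Ioc 0 V | c + 3 * x.1 ^ 2 = 3 * x.2 ^ 2} ≤ #c.divisors

/-- **HIT** (medium, 150 lines; COL). Many good columns. Proof. `Q` := the pairs `(m, u)`, `m ∈ TT r Y`, `1 ≤ u ≤ V` odd: at least `#(TT r Y) * (V/2)` pairs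
(the number of odd `u ≤ V` is at least `V/2`). `M = 2^a m + 3u² ≤ 4 * 2^a * Y` as `3u² ≤ 3V² ≤ 3 * 2^a Y`. A pair is bad (1) if there is another `(m', u') ∈ Rp a r M`:
then `m' ≤ 4 Y`, `m' ∈ TT r (4Y)`, `m' ≠ m` (otherwise `u' = u`), and for given `m, m'` the number of `u ≤ V` is at most `D`: `u, u' ≤ 4 * 2^a * Y` (use COL with `V` replaced by
a large number), `c = 2^a |m - m'| ≤ 2^a (4Y)`, COL for `(u, u')` or `(u', u)`. (2) if `Ih a r M`: `3u'² = 3u² + 2^a (m + r)`, COL with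
`c = 2^a (m + r) ≤ 2^a (4 Y + r)`: at most `D` values of `u` for every `m`. So at most `D * #(TT r Y) * (#(TT r (4Y)) + 1)` pairs are bad. For a pair `(m,u)` which is not bad
`Rp a r M = {(m, u)}` and `M ∈ Gd`; different pairs give different `M`. -/
def HIT_stmt : Prop := ∀ a r Y V D : ℕ, 0 < r → V ^ 2 ≤ 2 ^ a * Y → DvB D (2 ^ a * (4 * Y + r)) →
  #(TT r Y) * (V / 2) ≤ #(Gd a r (4 * 2 ^ a * Y)) + D * #(TT r Y) * (#(TT r (4 * Y)) + 1)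

open Classical in
/-- **MUL** (medium, 100 lines; SQ of Pool/Agent/helper7/EP/SpecL.lean, second part). Multiplicity. Proof. Choose `w` for every `r` in the set: `w² ≤ K 2^a`, so
`w ≤ W = Nat.sqrt (K * 2^a)`, and `w` determines `r` (`r 2^a = j + 3w²`). For two of the numbers, `w` and `w₀`: `2^a ∣ 3 (w² - w₀²)`, so `2^a ∣ w² - w₀²` and (SQ if `a ≥ 3`; if
`a = 2` both are odd) `2^(a-1)` divides `w - w₀` or `w + w₀`. So all `w` are in two classes modulo `2^(a-1)`, each contains at most `W/2^(a-1) + 1` numbers `1 ≤ w ≤ W`. -/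
def MUL_stmt : Prop := ∀ a K j : ℕ, 2 ≤ a →
  #{r ∈ Ioc 0 K | ∃ w ∈ ws (r * 2 ^ a), r * 2 ^ a - 3 * w ^ 2 = j} ≤
    2 * (Nat.sqrt (K * 2 ^ a) / 2 ^ (a - 1) + 1)

/-- **SEC** (medium, 130 lines; HIT, ODI, MUL). The second level. Proof. For `r ∈ R`: HIT gives `#(TT r Y) * (V/2 - D (T + 1)) ≤ #(Gd a r N)`, `N = 4 * 2^a * Y`, so
`τ (V/2 - D (T+1)) ≤ #(Gd a r N)` (`DvB D (2^a (4Y+r))` follows from `r ≤ K`). Every pair `(r, M)`, `r ∈ R`, `M ∈ Gd a r N`, gives by ODI a `w ∈ ws (r 2^a)` with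
`(j, M) ∈ PQ (K * 2^a) N`, `j = r 2^a - 3w² > 0`. For given `(j, M)` the number of `r` is at most the bound of MUL. -/
def SEC_stmt : Prop := ∀ (a K Y V D τ T : ℕ) (R : Finset ℕ), 2 ≤ a → V ^ 2 ≤ 2 ^ a * Y →
  DvB D (2 ^ a * (4 * Y + K)) →
  (∀ r ∈ R, 0 < r ∧ r ≤ K ∧ r.Coprime 6 ∧ τ ≤ #(TT r Y) ∧ #(TT r (4 * Y)) ≤ T) →
  #R * (τ * (V / 2 - D * (T + 1))) ≤
    2 * (Nat.sqrt (K * 2 ^ a) / 2 ^ (a - 1) + 1) * #(PQ (K * 2 ^ a) (4 * 2 ^ a * Y))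

/-- **FST** (short, 30 lines). The first level. Proof. The pairs `(r, m)`, `r ∈ R`, `m ∈ TT r Y` are in `PQ K Y`. -/
def FST_stmt : Prop := ∀ (K Y τ : ℕ) (R : Finset ℕ), (∀ r ∈ R, 0 < r ∧ r ≤ K ∧ τ ≤ #(TT r Y)) →
  #R * τ ≤ #(PQ K Y)

/-! ### Uniform rows -/

/-- **E16** (short, 70 lines; ID16, R5, R11 of Pool/Agent/helper83/OD/Spec.lean (namespace `Pool.Agent.OD`), JN). Proof. ID16 with `n = 7p` (`7 * 5 = 35 = 11 mod 24`): the right side is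
`1` (R11, R5), so some term on the left is not `0`. First sum: `M' = M - 16u²`, `u` prime to `6`. `M' ≠ 0` since `M` is odd; if `M' < 0` then by JN `M' = -7p`, i.e. `M + 7p = 16u²`,
excluded; so `M' = m > 0`. Second sum: `u ∈ uu (7p)`, `j = 7p - 16u² > 0` as `7p` is odd. -/
def E16_stmt : Prop := ∀ p M : ℕ, p.Prime → p % 24 = 5 → M.Prime → M % 24 = 5 →
  (¬ ∃ u : ℕ, M + 7 * p = 16 * u ^ 2) →
  (∃ m u : ℕ, 0 < m ∧ m + 16 * u ^ 2 = M ∧ JG ac (7 * p) (m : ℤ) ≠ 0) ∨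
  (∃ j u : ℕ, 0 < j ∧ j + 16 * u ^ 2 = 7 * p ∧ JG ac j (M : ℤ) ≠ 0)

/-- **UNC** (medium, 130 lines; E16). Counting. Proof. Classify the pairs `(p, M) ∈ P5 K ×ˢ P5 Z`. (a) `p` in the set of the statement: at most `#{..} * #(P5 Z)`. Now let
`p` be outside. (b) First alternative of E16: for given `p` at most `(√(2Z) + 1) * #(TT (7p) (2Z)) ≤ (√(2Z)+1) t` numbers `M = m + 16u²` (`m ≤ M ≤ 2Z`, `u ≤ √(2Z)`).
(c) Second alternative: `(j, M) ∈ PQ (14 K) (2Z)` (`j ≤ 7p ≤ 14 K`), and `p = (j + 16u²)/7`, `16u² ≤ 14 K`, `u ≤ √K`: at most `√K + 1` values of `u`. (d) Excluded pairs: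
`M = 16u² - 7p`, `16u² ≤ 2Z + 14K`, `u ≤ √(2Z+14K)`. -/
def UNC_stmt : Prop := ∀ K Z t : ℕ, #(P5 K) * #(P5 Z) ≤
  #{p ∈ P5 K | t ≤ #(TT (7 * p) (2 * Z))} * #(P5 Z) + #(P5 K) * ((Nat.sqrt (2 * Z) + 1) * t) +
    (Nat.sqrt K + 1) * #(PQ (14 * K) (2 * Z)) + #(P5 K) * (Nat.sqrt (2 * Z + 14 * K) + 1)

/-- **UNI** (medium, 130 lines, real analysis; UNC). Almost all rows are rich. Proof. `primes_ap 24 5` (namespace `Pool.Agent.helper7.OC`, Pool/Agent/helper29/OC/PIAP.lean) gives `c, x₀`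
with `#(P5 x) ≥ c x/log x`; for large `Z` (and `K ≥ Z^(1/10)`, `log K ≤ log Z`) this is `≥ x Z^(-δ/4)` for `x = K, Z`. `t = ⌈Z^(1/2-δ)⌉ ≤ 2 Z^(1/2-δ)`. In UNC the second term is
`≤ #(P5 K) * 2 √(2Z) * 2 Z^(1/2-δ) * .. ≤ 8 #(P5 K) Z^(1-δ) ≤ #(P5 K) #(P5 Z)/4`, the last one is `≤ #(P5 K) * 5 √Z ≤ #(P5 K) #(P5 Z)/4`, the third is
`≤ 2 √K * √K Z^(1 - 4δ) = 2 K Z^(1-4δ) ≤ #(P5 K) #(P5 Z)/4`. So the set has at least `#(P5 K)/4 ≥ K Z^(-δ)` elements. `R` := its image under `p ↦ 7p`; `7p` is prime to `6`. -/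
def UNI_stmt : Prop := ∀ δ : ℝ, 0 < δ → δ ≤ 1 / 10 → ∃ Z₀ : ℕ, ∀ Z K : ℕ, Z₀ ≤ Z →
  (Z : ℝ) ^ (1 / 10 : ℝ) ≤ K → K ≤ Z →
  (#(PQ (14 * K) (2 * Z)) : ℝ) ≤ Real.sqrt K * (Z : ℝ) ^ (1 - 4 * δ) →
  ∃ R : Finset ℕ, (∀ r ∈ R, 0 < r ∧ r ≤ 14 * K ∧ r.Coprime 6 ∧
    (Z : ℝ) ^ (1 / 2 - δ) ≤ (#(TT r (2 * Z)) : ℝ)) ∧ (K : ℝ) * (Z : ℝ) ^ (-δ) ≤ #R

/-- **PIG** (medium, 130 lines, pigeonhole). A scale at which the rows do not grow. Proof. Let `I = ⌊(δ/2) log Y₁/log 4⌋`, `Y_i = 4^i Y₁` for `i ≤ I`, so `Y_i ≤ Y₁^(1+δ)`, and `4 Y_I ≤ Y₁^(1+δ)` for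
large `Y₁`. `t_i(r) = #(TT r Y_i)` increases with `i`, `1 ≤ t_0`, `t_(I+1) ≤ Y₁^2`. Let `c ≥ 2` be an integer with `c^I > Y₁^2` for all large `Y₁` (`log c > 4 log 4/δ + ..`, e.g. `c ≥ 4^(8/δ)`). Then for each `r`
there is `i ≤ I` with `t_(i+1)(r) ≤ c t_i(r)`. Let `s` be the number with `2^s ≤ t_i(r) < 2^(s+1)`, `s ≤ log₂(Y₁²)`. The number of the pairs `(i, s)` is at most `(I+1)(2 log₂ Y₁ + 1) ≤ Y₁^δ` for large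
`Y₁`, so some pair `(i, s)` belongs to at least `#R/Y₁^δ` elements of `R`: let `R'` be the set of these, `Y = Y_i`, `τ = 2^s`: `τ ≤ #(TT r Y) < 2τ`, `#(TT r (4Y)) ≤ 2 c τ`. -/
def PIG_stmt : Prop := ∀ δ : ℝ, 0 < δ → δ ≤ 1 → ∃ B Y₀ : ℕ, ∀ (Y₁ : ℕ) (R : Finset ℕ), Y₀ ≤ Y₁ → R.Nonempty →
  (∀ r ∈ R, 1 ≤ #(TT r Y₁)) → ∃ (Y τ : ℕ) (R' : Finset ℕ), R' ⊆ R ∧ Y₁ ≤ Y ∧ (Y : ℝ) ≤ (Y₁ : ℝ) ^ (1 + δ) ∧ 1 ≤ τ ∧
    (#R : ℝ) ≤ #R' * (Y₁ : ℝ) ^ δ ∧ ∀ r ∈ R', τ ≤ #(TT r Y) ∧ #(TT r (4 * Y)) ≤ B * τ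

/-! ### The exponents -/

/-- **EXP** (medium, 100 lines, linear and quadratic inequalities). Proof with `δ = ε/20`. Write `s = 1/√5`, `β₀ = (1+√5)/4`; `s² = 1/5`. Put `m = max 1 (2b) - 1 ≥ 0`, so `a ≤ m + δ`.
Case 1, `a ≤ k`: the last hypothesis says `k/2 + b + 1/2 ≤ β(k+1) + (2β-1) a + 2δ`. If `b ≤ 1/2` then `m = 0`, `a ≤ δ`, `b ≥ 1/2 - δ`: `k/2 + 1 ≤ β(k+1) + 4δ`, false
(`β ≤ 0.81`, `0.44 ≤ k ≤ 0.45`, `δ ≤ 1/400`). If `b > 1/2` then `a ≤ 2b - 1 + δ` and `b ≤ β(k+1) - k + δ` give, as `0 ≤ 4β-3 ≤ 1`,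
`k/2 - 1/2 + β(1-k) ≤ (4β-3) b + 3δ ≤ (4β-3)(β(k+1) - k) + 4δ`, i.e. `0 ≤ 4(1+k)β² - (6k+4)β + (5k+1)/2 + 4δ`. The derivative of this with respect to `k` is `4β²-6β+5/2`, of absolute value
`≤ 1`, so `0 ≤ q(β) + 5δ`, `q(β) = 4(1+s)β² - (6s+4)β + (5s+1)/2 = 4(1+s)(β-β₀)(β-β₁)` with `β₀ + β₁ = (6s+4)/(4(1+s))`, `β₁ < 0.35` (check `q(β₀) = 0` using `s √5 = 1`), so
`q(β) ≤ -4 ε (0.4) < -5δ`, a contradiction.
Case 2, `a > k`: `m + δ ≥ a > k ≥ s - δ > δ`, so `m = 2b - 1`, `b ≥ (1+s)/2 - δ`; but `b ≤ β(k+1) - k + δ ≤ (β₀-ε)(1+s) - s + 2δ = (1+s)/2 - ε(1+s) + 2δ` (`β₀(1+s) - s = (1+s)/2`), contradiction. -/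
def EXP_stmt : Prop := ∀ ε : ℝ, 0 < ε → ε ≤ 1 / 20 → ∃ δ : ℝ, 0 < δ ∧ ∀ k b a β : ℝ,
  β ≤ (1 + √5) / 4 - ε → 3 / 4 ≤ β → |k - 1 / √5| ≤ δ → 1 / 2 - δ ≤ b → 0 ≤ a → 2 * b ≤ a + 1 →
  a + 1 ≤ max 1 (2 * b) + δ → k + b ≤ β * (k + 1) + δ →
  k + b + (a + 1) / 2 ≤ max ((k - a) / 2) 0 + β * (k + 2 * a + 1) + 2 * δ → False

/-- **GAM** (medium, 110 lines; EXP). Multiplicative form. Proof. `δ` from EXP, `Y₀` with `log 2 ≤ δ log Y₀`, `Y₀ > 1`. Put `k = log K/log Y`, `b = log τ/log Y`, `a = log A/log Y` (all of `K, τ, A` are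
positive) and divide the logarithms of the hypotheses by `log Y`. `√(K/A) + 1 ≤ 2 max(√(K/A), 1)`, whose logarithm is at most `(δ + max ((k-a)/2) 0) log Y`. -/
def GAM_stmt : Prop := ∀ ε : ℝ, 0 < ε → ε ≤ 1 / 20 → ∃ δ Y₀ : ℝ, 0 < δ ∧ ∀ Y K τ A β : ℝ, Y₀ ≤ Y → 1 < Y →
  β ≤ (1 + √5) / 4 - ε → 3 / 4 ≤ β → Y ^ (1 / √5 - δ) ≤ K → K ≤ Y ^ (1 / √5 + δ) → Y ^ (1 / 2 - δ) ≤ τ → 1 ≤ A →
  τ ^ 2 ≤ A * Y → A * Y ≤ Y ^ δ * max Y (τ ^ 2) → K * τ ≤ Y ^ δ * (K * Y) ^ β →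
  K * τ * Real.sqrt (A * Y) ≤ Y ^ δ * ((Real.sqrt (K / A) + 1) * (K * A ^ 2 * Y) ^ β) → False

/-! ### Assembly -/

/-- **SET** (medium-long, 150 lines, real analysis; UNI, PIG, PRB). First stage. Proof. We may assume `δ ≤ 1/100`. `η = δ/10` (or smaller). `Z = ⌈X^(2/5)⌉` (so `2 Z ≤ 4 X^(2/5)`), `K₁ = ⌊Z^(1/√5)⌋`.
Divisor bound: `card_divisors_le` (Pool/Agent/helper47/RA/Num.lean) with the exponent `η/4`: `D ≤ X^(η/2) ≤ Z^(2η)` for all numbers `≤ X`, `X` large. PRB with `J = 14 K₁`, `L = 2 Z`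
(`28 K₁ Z ≤ X`, as `(2/5)(1 + 1/√5) < 1`), `β = (1+√5)/4 - ε`, `B = X^(1/10) ≤ Z^(1/4)`: `#(PQ ..) ≤ D (4 (28 K₁ Z)^β + 14 K₁ B) ≤ √K₁ Z^(1-4η)` for large `X`, since `β (1 + 1/√5) ≤ 1.171 < 1.22`
and `1/√5 + 1/4 < 1.22`, `1/(2√5) + 1 > 1.22`. UNI (`η`) gives `R`; its rows have `≥ Z^(1/2-η) ≥ 1` odd entries below `Y₁ = 2Z`. PIG (`η`) gives `B', Y, τ, R'`. `K := 14 K₁`, `Bc := B' + 1`.
`Z^(1/2-η) ≤ #(TT r (2Z)) ≤ #(TT r (4Y)) ≤ B' τ` for `r ∈ R'` (not empty), so `τ ≥ Z^(1/2-η)/B' ≥ Y^(1/2-δ)` for large `X`. `#R' ≥ K₁ Z^(-η) (2Z)^(-η) ≥ K Y^(-δ)`. `Y` is between `Z` and `(2Z)^(1+η)`, so `K` is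
between `Y^(1/√5-δ)` and `Y^(1/√5+δ)`, and `X^(2/5) ≤ Y ≤ X^(2/5+δ)`. -/
def SET_stmt : Prop := ∀ ε δ : ℝ, 0 < ε → ε ≤ 1 / 20 → 0 < δ → ∃ X₀ : ℕ, ∀ X : ℕ, X₀ ≤ X →
  Few ((1 + √5) / 4 - ε) ((X : ℝ) ^ (1 / 10 : ℝ)) X →
  ∃ (Y K τ Bc : ℕ) (R : Finset ℕ), (X : ℝ) ^ (2 / 5 : ℝ) ≤ Y ∧ (Y : ℝ) ≤ (X : ℝ) ^ (2 / 5 + δ) ∧
    (Y : ℝ) ^ (1 / √5 - δ) ≤ K ∧ (K : ℝ) ≤ (Y : ℝ) ^ (1 / √5 + δ) ∧ (Bc : ℝ) ≤ (Y : ℝ) ^ δ ∧ 1 ≤ Bc ∧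
    (Y : ℝ) ^ (1 / 2 - δ) ≤ τ ∧
    (∀ r ∈ R, 0 < r ∧ r ≤ K ∧ r.Coprime 6 ∧ τ ≤ #(TT r Y) ∧ #(TT r (4 * Y)) ≤ Bc * τ) ∧
    (K : ℝ) * (Y : ℝ) ^ (-δ) ≤ #R

/-- **CTR** (medium-long, 180 lines, real analysis; SET, SEC, FST, PRB, GAM). Contradiction. Proof. `δ₀, Y₀` from GAM (for `ε`); `δ = min (δ₀/40) (1/1000)`. SET with `δ`. Put `β = (1+√5)/4 - ε`, so `3/4 ≤ β < 0.81`.
`B = X^(1/10) ≤ Y^(1/4)`. Divisor bound `D ≤ X^(δ/3) ≤ Y^δ` for the numbers `≤ X` (`card_divisors_le`).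
(1) FST and PRB (`K Y ≤ X`): `#R τ ≤ D (4 (KY)^β + K B) ≤ 5 Y^δ (KY)^β` (`K B ≤ K Y^(1/4) ≤ (KY)^(3/4)` since `K ≤ Y^2`), so `K τ ≤ 5 Y^(2δ) (KY)^β ≤ Y^(δ₀) (KY)^β`. In particular
`τ ≤ Y^(3δ) Y^((k+1)β - k) ≤ Y^(0.73)` (`k = log K/log Y` is between `0.446` and `0.449`).
(2) `a` := the least integer `≥ 2` with `(16 D (Bc τ + 1))^2 ≤ 2^a Y`; `A = 2^a`. So `τ² ≤ A Y`, and `A Y ≤ 4 Y` or `A Y ≤ 2 (16 D (Bc τ + 1))² ≤ 2048 D² Bc² τ² ≤ Y^(5δ) τ²`. So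
`A Y ≤ Y^(δ₀) max(Y, τ²)` and `A ≤ Y^(0.47)`. All numbers `K 2^a * (4 * 2^a Y) ≤ 4 Y^(0.449 + 0.94 + 1) ≤ X`, as `Y ≤ X^(0.401)`, `0.401 * 2.39 < 0.96`; also `2^a (4Y+K) ≤ X`.
(3) `V = Nat.sqrt (2^a Y) ≥ 16 D (Bc τ + 1)`, so `V/2 - D (Bc τ + 1) ≥ V/4` (real, `V ≥ 16`) and `V ≥ √(AY)/2`. SEC with `T = Bc τ`: `#R τ V/4 ≤ 2 (2 √(KA)/A + 1) #(PQ (K A) (4 A Y))`, PRB:
`#(PQ ..) ≤ D (4 (4 K A² Y)^β + K A B) ≤ 20 Y^δ (K A² Y)^β` (`K A B ≤ K A Y^(1/4) ≤ (K A² Y)^(3/4)` since `K ≤ Y²`). So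
`K τ √(AY) ≤ 1000 Y^(2δ) (√(K/A) + 1) (K A² Y)^β ≤ Y^(δ₀) ...`. All the hypotheses of GAM are satisfied. -/
def CTR_stmt : Prop := ∀ ε : ℝ, 0 < ε → ε ≤ 1 / 20 → ∃ X₀ : ℕ, ∀ X : ℕ, X₀ ≤ X →
  ¬ Few ((1 + √5) / 4 - ε) ((X : ℝ) ^ (1 / 10 : ℝ)) X

/-- **RES** (short, 60 lines; CTR). The theorem. Proof. We may assume `ε ≤ 1/20` (a larger `ε` gives a smaller power as `x ≥ 1`). `X` large. If there is no such `x` then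
`sO x < x^β` for `X^(1/10) ≤ x ≤ X`, and `sO x ≤ x + 1 ≤ x^β + X^(1/10)` for `x < X^(1/10)` (for `x ≥ 1`: `x ≤ X^(1/10)`, `1 ≤ x^β`; `sO 0 = 1`). So `Few` holds, against CTR. -/
def RES_stmt : Prop := ∀ ε : ℝ, 0 < ε → ∃ X₀ : ℕ, ∀ X : ℕ, X₀ ≤ X →
  ∃ x : ℕ, (X : ℝ) ^ (1 / 10 : ℝ) ≤ x ∧ x ≤ X ∧ (x : ℝ) ^ ((1 + √5) / 4 - ε) ≤ (sO x : ℝ)

end Pool.Agent.OG
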