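import Pool.Agent.helper82.OG.Spec
import Pool.Agent.helper47.RA.Num

set_option autoImplicit false

open Finset Filter

namespace Pool.Agent.OG

open Pool.Agent.EP

theorem SET_ev (c e : ℝ) (he : 0 < e) : ∀ᶠ z : ℝ in atTop, c ≤ z ^ e :=
  (tendsto_rpow_atTop he).eventually_ge_atTop c

theorem SET_s : (0.447 : ℝ) < 1 / √5 ∧ (1 / √5 : ℝ) < 0.44723 := by
  have h1 : (2.236 : ℝ) < √5 := by
    apply Real.lt_sqrt_of_sq_lt; norm_num
  have h2 : √5 < (2.237 : ℝ) := by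
    rw [Real.sqrt_lt' (by norm_num)]; norm_num
  have h5 : (0 : ℝ) < √5 := by linarith
  constructor
  · rw [lt_div_iff₀ h5]; nlinarith
  · rw [div_lt_iff₀ h5]; nlinarith

theorem SET_beta : (1 + √5) / 4 * (1 + 1 / √5) = (1 + 3 * (1 / √5)) / 2 := by
  have h5 : (0 : ℝ) < √5 := Real.sqrt_pos.mpr (by norm_num)
  have h : √5 * √5 = 5 := Real.mul_self_sqrt (by norm_num)
  field_simp
  nlinarith

/-- The numerical bound for the entries of the first rectangle. -/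
theorem SET_num (z k1 D B β η : ℝ) (hz : 1 ≤ z) (hη0 : 0 < η) (hη : η ≤ 1 / 2000)
    (hβ : β ≤ (1 + √5) / 4) (hβ0 : 3 / 4 ≤ β) (hk0 : 0 ≤ k1) (hk : k1 ≤ z ^ (1 / √5 : ℝ))
    (hk' : z ^ (1 / √5 : ℝ) / 2 ≤ k1) (hD : D ≤ z ^ η) (hB0 : 0 ≤ B) (hB : B ≤ z ^ (1 / 4 : ℝ))
    (h252 : 252 ≤ z ^ (1 / 20 : ℝ)) (_hD0 : 0 ≤ D) :
    D * (4 * ((14 * k1) * (2 * z)) ^ β + 14 * k1 * B) ≤ Real.sqrt k1 * z ^ (1 - 4 * η) := by
  obtain ⟨hs1, hs2⟩ := SET_s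
  set s : ℝ := 1 / √5 with hs
  have hz0 : 0 < z := by linarith
  have hb1 : β * (1 + s) ≤ (1 + 3 * s) / 2 := by
    rw [hs, ← SET_beta]
    apply mul_le_mul_of_nonneg_right hβ
    have : (0 : ℝ) < 1 / √5 := by linarith
    linarith
  have h5lt : √5 < (2.237 : ℝ) := by
    rw [Real.sqrt_lt' (by norm_num)]; norm_num
  have hb2 : β ≤ 1 := by linarith
  have e1 : (14 * k1) * (2 * z) ≤ 28 * z ^ (1 + s) := by
    rw [Real.rpow_add hz0, Real.rpow_one]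
    nlinarith
  have e2 : ((14 * k1) * (2 * z)) ^ β ≤ 28 * z ^ ((1 + 3 * s) / 2) := by
    calc ((14 * k1) * (2 * z)) ^ β ≤ (28 * z ^ (1 + s)) ^ β :=
          Real.rpow_le_rpow (by positivity) e1 (by linarith)
      _ = 28 ^ β * z ^ ((1 + s) * β) := by
          rw [Real.mul_rpow (by norm_num) (by positivity), ← Real.rpow_mul hz0.le]
      _ ≤ 28 * z ^ ((1 + 3 * s) / 2) := by
          apply mul_le_mul _ _ (by positivity) (by norm_num)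
          · calc (28 : ℝ) ^ β ≤ 28 ^ (1 : ℝ) :=
                  Real.rpow_le_rpow_of_exponent_le (by norm_num) hb2
              _ = 28 := Real.rpow_one _
          · apply Real.rpow_le_rpow_of_exponent_le hz
            linarith
  have e3 : 14 * k1 * B ≤ 14 * z ^ ((1 + 3 * s) / 2) := by
    have : k1 * B ≤ z ^ ((1 + 3 * s) / 2) := by
      calc k1 * B ≤ z ^ s * z ^ (1 / 4 : ℝ) := mul_le_mul hk hB hB0 (by positivity)
        _ = z ^ (s + 1 / 4) := by rw [Real.rpow_add hz0]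
        _ ≤ z ^ ((1 + 3 * s) / 2) := by
            apply Real.rpow_le_rpow_of_exponent_le hz
            linarith
    nlinarith
  have e4 : D * (4 * ((14 * k1) * (2 * z)) ^ β + 14 * k1 * B) ≤
      126 * z ^ (η + (1 + 3 * s) / 2) := by
    calc D * (4 * ((14 * k1) * (2 * z)) ^ β + 14 * k1 * B)
        ≤ z ^ η * (126 * z ^ ((1 + 3 * s) / 2)) := by
          apply mul_le_mul hD _ (by positivity) (by positivity)
          linarith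
      _ = 126 * z ^ (η + (1 + 3 * s) / 2) := by rw [Real.rpow_add hz0]; ring
  have e5 : z ^ (s / 2) / 2 ≤ Real.sqrt k1 := by
    apply Real.le_sqrt_of_sq_le
    have : (z ^ (s / 2) / 2) ^ 2 = z ^ s / 4 := by
      rw [div_pow, ← Real.rpow_natCast, ← Real.rpow_mul hz0.le]
      norm_num
    rw [this]
    have : 0 < z ^ s := by positivity
    linarith
  have e6 : (252 : ℝ) * z ^ (η + (1 + 3 * s) / 2) ≤ z ^ (s / 2 + (1 - 4 * η)) := by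
    calc (252 : ℝ) * z ^ (η + (1 + 3 * s) / 2) ≤ z ^ (1 / 20 : ℝ) * z ^ (η + (1 + 3 * s) / 2) :=
          mul_le_mul_of_nonneg_right h252 (by positivity)
      _ = z ^ (1 / 20 + (η + (1 + 3 * s) / 2)) := by rw [← Real.rpow_add hz0]
      _ ≤ z ^ (s / 2 + (1 - 4 * η)) := by
          apply Real.rpow_le_rpow_of_exponent_le hz
          linarith
  calc D * (4 * ((14 * k1) * (2 * z)) ^ β + 14 * k1 * B) ≤ 126 * z ^ (η + (1 + 3 * s) / 2) := e4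
    _ ≤ z ^ (s / 2 + (1 - 4 * η)) / 2 := by linarith
    _ = z ^ (s / 2) / 2 * z ^ (1 - 4 * η) := by rw [Real.rpow_add hz0]; ring
    _ ≤ Real.sqrt k1 * z ^ (1 - 4 * η) := mul_le_mul_of_nonneg_right e5 (by positivity)



theorem SET_JL (x z k1 s : ℝ) (hx0 : 0 < x) (hz1 : 1 ≤ z) (hs2 : s ≤ 1 / 2)
    (hk0 : 0 ≤ k1) (hk : k1 ≤ z ^ s) (hzx' : z ≤ 2 * x ^ (2 / 5 : ℝ)) (hx80 : 80 ≤ x ^ (2 / 5 : ℝ)) :
    14 * k1 * (2 * z) ≤ x := by
  have hz0 : 0 < z := by linarith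
  have h2 : k1 ≤ z ^ (1 / 2 : ℝ) :=
    hk.trans (Real.rpow_le_rpow_of_exponent_le hz1 hs2)
  have h3 : k1 * z ≤ z ^ (3 / 2 : ℝ) := by
    calc k1 * z ≤ z ^ (1 / 2 : ℝ) * z := mul_le_mul_of_nonneg_right h2 hz0.le
      _ = z ^ (3 / 2 : ℝ) := by
        nth_rewrite 2 [← Real.rpow_one z]
        rw [← Real.rpow_add hz0]; norm_num
  have h5 : (2 : ℝ) ^ (3 / 2 : ℝ) ≤ 2.83 := by
    have h5 : (2 : ℝ) ^ (3 / 2 : ℝ) = √8 := by
      rw [Real.sqrt_eq_rpow, show (8 : ℝ) = 2 ^ (3 : ℝ) by norm_num,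
        ← Real.rpow_mul (by norm_num)]
      norm_num
    rw [h5, Real.sqrt_le_left (by norm_num)]
    norm_num
  have h4 : z ^ (3 / 2 : ℝ) ≤ 2.83 * x ^ (3 / 5 : ℝ) := by
    calc z ^ (3 / 2 : ℝ) ≤ (2 * x ^ (2 / 5 : ℝ)) ^ (3 / 2 : ℝ) :=
          Real.rpow_le_rpow hz0.le hzx' (by norm_num)
      _ = 2 ^ (3 / 2 : ℝ) * x ^ (3 / 5 : ℝ) := by
          rw [Real.mul_rpow (by norm_num) (by positivity), ← Real.rpow_mul hx0.le]; norm_num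
      _ ≤ 2.83 * x ^ (3 / 5 : ℝ) := mul_le_mul_of_nonneg_right h5 (by positivity)
  have h6 : x = x ^ (2 / 5 : ℝ) * x ^ (3 / 5 : ℝ) := by
    rw [← Real.rpow_add hx0]; norm_num
  have h7 : 0 < x ^ (3 / 5 : ℝ) := by positivity
  calc 14 * k1 * (2 * z) = 28 * (k1 * z) := by ring
    _ ≤ 28 * (2.83 * x ^ (3 / 5 : ℝ)) := by linarith
    _ ≤ 80 * x ^ (3 / 5 : ℝ) := by linarith
    _ ≤ x ^ (2 / 5 : ℝ) * x ^ (3 / 5 : ℝ) := mul_le_mul_of_nonneg_right hx80 h7.le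
    _ = x := h6.symm

theorem SET_Dz (x z C D η : ℝ) (hx0 : 0 < x) (hz1 : 1 ≤ z) (hη0 : 0 < η) (hC : 0 ≤ C)
    (hxz : x ≤ z ^ (5 / 2 : ℝ)) (hD : D < C * x ^ (η / 5) + 1) (hzC : C + 1 ≤ z ^ (η / 2)) :
    D ≤ z ^ η := by
  have hz0 : 0 < z := by linarith
  have h2 : x ^ (η / 5) ≤ z ^ (η / 2) := by
    calc x ^ (η / 5) ≤ (z ^ (5 / 2 : ℝ)) ^ (η / 5) :=
          Real.rpow_le_rpow hx0.le hxz (by positivity)
      _ = z ^ (η / 2) := by rw [← Real.rpow_mul hz0.le]; congr 1; ring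
  have h3 : z ^ η = z ^ (η / 2) * z ^ (η / 2) := by rw [← Real.rpow_add hz0]; congr 1; ring
  have h4 : 1 ≤ z ^ (η / 2) := Real.one_le_rpow hz1 (by positivity)
  have h5 := mul_le_mul_of_nonneg_left h2 hC
  rw [h3]
  nlinarith

theorem SET_yz (z y η : ℝ) (hz1 : 1 ≤ z) (hη0 : 0 < η) (hη1 : η ≤ 1) (hz4 : 4 ≤ z ^ η)
    (hY2 : y ≤ (2 * z) ^ (1 + η)) : y ≤ z ^ (1 + 2 * η) := by
  have hz0 : 0 < z := by linarith
  calc y ≤ (2 * z) ^ (1 + η) := hY2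
    _ = 2 ^ (1 + η) * z ^ (1 + η) := Real.mul_rpow (by norm_num) hz0.le
    _ ≤ 4 * z ^ (1 + η) := by
        apply mul_le_mul_of_nonneg_right _ (by positivity)
        calc (2 : ℝ) ^ (1 + η) ≤ 2 ^ (2 : ℝ) :=
              Real.rpow_le_rpow_of_exponent_le (by norm_num) (by linarith)
          _ = 4 := by norm_num
    _ ≤ z ^ η * z ^ (1 + η) := mul_le_mul_of_nonneg_right hz4 (by positivity)
    _ = z ^ (1 + 2 * η) := by rw [← Real.rpow_add hz0]; congr 1; ring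

theorem SET_g1 (x z y δ η : ℝ) (hx1 : 1 ≤ x) (hz1 : 1 ≤ z) (hη0 : 0 < η) (hη1 : η ≤ 1)
    (hzx' : z ≤ 2 * x ^ (2 / 5 : ℝ)) (hx16 : 16 ≤ x ^ (δ - η)) (hY2 : y ≤ (2 * z) ^ (1 + η)) :
    y ≤ x ^ (2 / 5 + δ) := by
  have hx0 : 0 < x := by linarith
  have hz0 : 0 < z := by linarith
  calc y ≤ (2 * z) ^ (1 + η) := hY2
    _ ≤ (4 * x ^ (2 / 5 : ℝ)) ^ (1 + η) :=
        Real.rpow_le_rpow (by positivity) (by linarith) (by positivity)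
    _ = 4 ^ (1 + η) * x ^ ((2 / 5 : ℝ) * (1 + η)) := by
        rw [Real.mul_rpow (by norm_num) (by positivity), ← Real.rpow_mul hx0.le]
    _ ≤ 16 * x ^ ((2 / 5 : ℝ) + η) := by
        apply mul_le_mul _ _ (by positivity) (by norm_num)
        · calc (4 : ℝ) ^ (1 + η) ≤ 4 ^ (2 : ℝ) :=
              Real.rpow_le_rpow_of_exponent_le (by norm_num) (by linarith)
            _ = 16 := by norm_num
        · apply Real.rpow_le_rpow_of_exponent_le hx1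
          linarith
    _ ≤ x ^ (δ - η) * x ^ ((2 / 5 : ℝ) + η) := mul_le_mul_of_nonneg_right hx16 (by positivity)
    _ = x ^ (2 / 5 + δ) := by rw [← Real.rpow_add hx0]; congr 1; ring

theorem SET_g2 (z y k1 s δ η : ℝ) (hz1 : 1 ≤ z) (hy0 : 0 < y) (hη0 : 0 < η) (hδ : 0 < δ)
    (hηδ : 2 * η ≤ δ) (hs0 : δ ≤ s) (hs1 : s ≤ 1) (hyz2 : y ≤ z ^ (1 + 2 * η))
    (hk' : z ^ s / 2 ≤ k1) : y ^ (s - δ) ≤ 14 * k1 := by
  have hz0 : 0 < z := by linarith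
  have hp : 0 < z ^ s := by positivity
  calc y ^ (s - δ) ≤ (z ^ (1 + 2 * η)) ^ (s - δ) :=
        Real.rpow_le_rpow hy0.le hyz2 (by linarith)
    _ = z ^ ((1 + 2 * η) * (s - δ)) := by rw [← Real.rpow_mul hz0.le]
    _ ≤ z ^ s := by
        apply Real.rpow_le_rpow_of_exponent_le hz1
        nlinarith [mul_pos hη0 hδ]
    _ ≤ 14 * k1 := by linarith

theorem SET_g3 (z y k1 s δ : ℝ) (hz1 : 1 ≤ z) (hzy : z ≤ y) (hδ : 0 < δ) (hs0 : 0 ≤ s)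
    (h14 : 14 ≤ z ^ δ) (hk0 : 0 ≤ k1) (hk : k1 ≤ z ^ s) : 14 * k1 ≤ y ^ (s + δ) := by
  have hz0 : 0 < z := by linarith
  have hy0 : 0 < y := by linarith
  calc 14 * k1 ≤ y ^ δ * y ^ s := by
        apply mul_le_mul _ _ (by positivity) (by positivity)
        · exact h14.trans (Real.rpow_le_rpow hz0.le hzy hδ.le)
        · exact hk.trans (Real.rpow_le_rpow hz0.le hzy hs0)
    _ = y ^ (s + δ) := by rw [← Real.rpow_add hy0]; congr 1; ring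

theorem SET_g5 (z y b t τ δ η : ℝ) (hz1 : 1 ≤ z) (hy0 : 0 < y) (hη0 : 0 < η) (hδ : 0 < δ)
    (hδ1 : δ ≤ 1 / 4) (hyz2 : y ≤ z ^ (1 + 2 * η)) (hb : 0 ≤ b) (hτ : 0 ≤ τ)
    (hzB : b + 1 ≤ z ^ (δ - 2 * η)) (h1 : z ^ (1 / 2 - η) ≤ t) (h3 : t ≤ b * τ) :
    y ^ (1 / 2 - δ) ≤ τ := by
  have hz0 : 0 < z := by linarith
  have h4 : z ^ (1 / 2 - η) ≤ (b + 1) * τ := by nlinarith
  have h5 : y ^ (1 / 2 - δ) * (b + 1) ≤ z ^ (1 / 2 - η) := by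
    calc y ^ (1 / 2 - δ) * (b + 1) ≤ z ^ (1 / 2 - δ + η) * z ^ (δ - 2 * η) := by
          apply mul_le_mul _ hzB (by positivity) (by positivity)
          calc y ^ (1 / 2 - δ) ≤ (z ^ (1 + 2 * η)) ^ (1 / 2 - δ) :=
                Real.rpow_le_rpow hy0.le hyz2 (by linarith)
            _ = z ^ ((1 + 2 * η) * (1 / 2 - δ)) := by rw [← Real.rpow_mul hz0.le]
            _ ≤ z ^ (1 / 2 - δ + η) := by
                apply Real.rpow_le_rpow_of_exponent_le hz1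
                nlinarith [mul_pos hη0 hδ]
      _ = z ^ (1 / 2 - η) := by rw [← Real.rpow_add hz0]; congr 1; ring
  have h6 : (0 : ℝ) < b + 1 := by positivity
  have h7 : y ^ (1 / 2 - δ) * (b + 1) ≤ τ * (b + 1) := by
    rw [mul_comm τ]
    exact h5.trans h4
  exact le_of_mul_le_mul_right h7 h6

theorem SET_g7 (z y k1 r r' δ η : ℝ) (hz1 : 1 ≤ z) (hzy : z ≤ y) (hη0 : 0 < η) (hη1 : η ≤ 1)
    (hδ : 0 < δ) (hk0 : 0 ≤ k1) (hr' : 0 ≤ r') (hz28 : 28 ≤ z ^ (δ - 2 * η))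
    (h0 : k1 * z ^ (-η) ≤ r) (h0' : r ≤ r' * (2 * z) ^ η) : 14 * k1 * y ^ (-δ) ≤ r' := by
  have hz0 : 0 < z := by linarith
  have h1 : k1 * z ^ (-η) ≤ r' * (2 * z) ^ η := h0.trans h0'
  have h2 : (2 * z) ^ η ≤ 2 * z ^ η := by
    rw [Real.mul_rpow (by norm_num) hz0.le]
    apply mul_le_mul_of_nonneg_right _ (by positivity)
    calc (2 : ℝ) ^ η ≤ 2 ^ (1 : ℝ) :=
          Real.rpow_le_rpow_of_exponent_le (by norm_num) hη1
      _ = 2 := Real.rpow_one _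
  have h3 : k1 * z ^ (-η) ≤ r' * (2 * z ^ η) :=
    h1.trans (mul_le_mul_of_nonneg_left h2 hr')
  have h4 : 28 * z ^ (-δ) * z ^ η ≤ z ^ (-η) := by
    calc 28 * z ^ (-δ) * z ^ η ≤ z ^ (δ - 2 * η) * z ^ (-δ) * z ^ η := by
          apply mul_le_mul_of_nonneg_right _ (by positivity)
          exact mul_le_mul_of_nonneg_right hz28 (by positivity)
      _ = z ^ (-η) := by
          rw [← Real.rpow_add hz0, ← Real.rpow_add hz0]; congr 1; ring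
  have h5 : y ^ (-δ) ≤ z ^ (-δ) := Real.rpow_le_rpow_of_nonpos hz0 hzy (by linarith)
  have h6 : (0 : ℝ) < 2 * z ^ η := by positivity
  have h7 : 14 * k1 * y ^ (-δ) * (2 * z ^ η) ≤ r' * (2 * z ^ η) := by
    calc 14 * k1 * y ^ (-δ) * (2 * z ^ η) ≤ 14 * k1 * z ^ (-δ) * (2 * z ^ η) := by
          apply mul_le_mul_of_nonneg_right _ h6.le
          exact mul_le_mul_of_nonneg_left h5 (by positivity)
      _ = k1 * (28 * z ^ (-δ) * z ^ η) := by ring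
      _ ≤ k1 * z ^ (-η) := mul_le_mul_of_nonneg_left h4 hk0
      _ ≤ r' * (2 * z ^ η) := h3
  exact le_of_mul_le_mul_right h7 h6

theorem SET_TT_mono (r a b : ℕ) (h : a ≤ b) : #(TT r a) ≤ #(TT r b) := by
  apply card_le_card
  intro m hm
  simp only [TT, mem_filter, mem_Ioc] at hm ⊢
  exact ⟨⟨hm.1.1, hm.1.2.trans h⟩, hm.2⟩

theorem SET_small (hUNI : UNI_stmt) (hPIG : PIG_stmt) (hPRB : PRB_stmt) (ε δ : ℝ) (hε : 0 < ε)
    (hε1 : ε ≤ 1 / 20) (hδ : 0 < δ) (hδ1 : δ ≤ 1 / 100) : ∃ X₀ : ℕ, ∀ X : ℕ, X₀ ≤ X →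
  Few ((1 + √5) / 4 - ε) ((X : ℝ) ^ (1 / 10 : ℝ)) X →
  ∃ (Y K τ Bc : ℕ) (R : Finset ℕ), (X : ℝ) ^ (2 / 5 : ℝ) ≤ Y ∧ (Y : ℝ) ≤ (X : ℝ) ^ (2 / 5 + δ) ∧
    (Y : ℝ) ^ (1 / √5 - δ) ≤ K ∧ (K : ℝ) ≤ (Y : ℝ) ^ (1 / √5 + δ) ∧ (Bc : ℝ) ≤ (Y : ℝ) ^ δ ∧ 1 ≤ Bc ∧
    (Y : ℝ) ^ (1 / 2 - δ) ≤ τ ∧
    (∀ r ∈ R, 0 < r ∧ r ≤ K ∧ r.Coprime 6 ∧ τ ≤ #(TT r Y) ∧ #(TT r (4 * Y)) ≤ Bc * τ) ∧
    (K : ℝ) * (Y : ℝ) ^ (-δ) ≤ #R := by
  obtain ⟨hs1, hs2⟩ := SET_s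
  set η : ℝ := δ / 20 with hη
  have hη0 : 0 < η := by positivity
  have hη1 : η ≤ 1 / 2000 := by rw [hη]; linarith
  obtain ⟨C, hC1, hC⟩ := Pool.Agent.helper47.RA.card_divisors_le (η / 5) (by positivity)
  obtain ⟨Z₀, hU⟩ := hUNI η hη0 (by linarith)
  obtain ⟨B', Y₀, hP⟩ := hPIG η hη0 (by linarith)
  have hev : ∀ᶠ z : ℝ in atTop, (1 ≤ z ∧ C + 1 ≤ z ^ (η / 2) ∧ 252 ≤ z ^ (1 / 20 : ℝ) ∧
      2 ≤ z ^ (447 / 1000 : ℝ) ∧ 2 ≤ z ^ (347 / 1000 : ℝ)) ∧ (4 ≤ z ^ η ∧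
      (B' : ℝ) + 1 ≤ z ^ (δ - 2 * η) ∧ 28 ≤ z ^ (δ - 2 * η) ∧ (Z₀ : ℝ) ≤ z ∧ (Y₀ : ℝ) ≤ z) := by
    have hδη : 0 < δ - 2 * η := by rw [hη]; linarith
    refine ((eventually_ge_atTop 1).and ((SET_ev _ _ (by positivity)).and
      ((SET_ev _ _ (by norm_num)).and ((SET_ev _ _ (by norm_num)).and
        (SET_ev _ _ (by norm_num)))))).and
      ((SET_ev _ _ hη0).and ((SET_ev _ _ hδη).and ((SET_ev _ _ hδη).and
        ((eventually_ge_atTop _).and (eventually_ge_atTop _)))))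
  obtain ⟨z₀, hz₀⟩ := eventually_atTop.mp hev
  have hevx : ∀ᶠ x : ℝ in atTop, 1 ≤ x ∧ z₀ ≤ x ^ (2 / 5 : ℝ) ∧ 16 ≤ x ^ (δ - η) ∧
      80 ≤ x ^ (2 / 5 : ℝ) := by
    have hδη : 0 < δ - η := by rw [hη]; linarith
    exact (eventually_ge_atTop 1).and ((SET_ev _ _ (by norm_num)).and
      ((SET_ev _ _ hδη).and (SET_ev _ _ (by norm_num))))
  obtain ⟨x₀, hx₀⟩ := eventually_atTop.mp hevx
  refine ⟨⌈x₀⌉₊, fun X hX hFew => ?_⟩
  obtain ⟨hx1, hxz, hx16, hx80⟩ := hx₀ (X : ℝ) ((Nat.le_ceil x₀).trans (by exact_mod_cast hX))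
  set x : ℝ := (X : ℝ) with hx
  have hx0 : 0 < x := by linarith
  set Z : ℕ := ⌈x ^ (2 / 5 : ℝ)⌉₊ with hZ
  set z : ℝ := (Z : ℝ) with hz
  have hzx : x ^ (2 / 5 : ℝ) ≤ z := Nat.le_ceil _
  have hzx' : z ≤ 2 * x ^ (2 / 5 : ℝ) := by
    have := Nat.ceil_lt_add_one (show 0 ≤ x ^ (2 / 5 : ℝ) by positivity)
    have h1 : z < x ^ (2 / 5 : ℝ) + 1 := this
    linarith
  obtain ⟨⟨hz1, hzC, hz252, hz447, hz347⟩, hz4, hzB, hz28, hzZ, hzY⟩ := hz₀ z (hxz.trans hzx)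
  have hz0 : 0 < z := by linarith
  set s : ℝ := 1 / √5 with hs
  have hzs : z ^ (447 / 1000 : ℝ) ≤ z ^ s := Real.rpow_le_rpow_of_exponent_le hz1 (by linarith)
  set K₁ : ℕ := ⌊z ^ s⌋₊ with hK₁
  have hk : (K₁ : ℝ) ≤ z ^ s := Nat.floor_le (by positivity)
  have hk' : z ^ s / 2 ≤ (K₁ : ℝ) := by
    have := Nat.lt_floor_add_one (z ^ s)
    have h1 : z ^ s < (K₁ : ℝ) + 1 := this
    linarith
  have hxz52 : x ≤ z ^ (5 / 2 : ℝ) := by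
    calc x = (x ^ (2 / 5 : ℝ)) ^ (5 / 2 : ℝ) := by
          rw [← Real.rpow_mul hx0.le]; norm_num
      _ ≤ z ^ (5 / 2 : ℝ) := Real.rpow_le_rpow (by positivity) hzx (by norm_num)
  set D : ℕ := ⌈C * x ^ (η / 5)⌉₊ with hD
  have hDv : DvB D X := by
    intro k hk0 hkX
    have h1 := hC k hk0
    have h2 : (k : ℝ) ^ (η / 5) ≤ x ^ (η / 5) :=
      Real.rpow_le_rpow (by positivity) (by rw [hx]; exact_mod_cast hkX) (by positivity)
    have h3 : ((k.divisors.card : ℕ) : ℝ) ≤ (D : ℝ) :=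
      (h1.trans (mul_le_mul_of_nonneg_left h2 (by linarith))).trans (Nat.le_ceil _)
    exact_mod_cast h3
  have hDz : (D : ℝ) ≤ z ^ η :=
    SET_Dz x z C D η hx0 hz1 hη0 (by linarith) hxz52 (Nat.ceil_lt_add_one (by positivity)) hzC
  have hB : x ^ (1 / 10 : ℝ) ≤ z ^ (1 / 4 : ℝ) := by
    calc x ^ (1 / 10 : ℝ) ≤ (z ^ (5 / 2 : ℝ)) ^ (1 / 10 : ℝ) :=
          Real.rpow_le_rpow hx0.le hxz52 (by norm_num)
      _ = z ^ (1 / 4 : ℝ) := by rw [← Real.rpow_mul hz0.le]; norm_num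
  have hJL : 14 * K₁ * (2 * Z) ≤ X := by
    have h1 := SET_JL x z K₁ s hx0 hz1 (by linarith) (by positivity) hk hzx' hx80
    rw [hz, hx] at h1
    exact_mod_cast h1
  have h5lt : (2.236 : ℝ) < √5 := by
    apply Real.lt_sqrt_of_sq_lt; norm_num
  have h5lt' : √5 < (2.237 : ℝ) := by
    rw [Real.sqrt_lt' (by norm_num)]; norm_num
  have hPQ : (#(PQ (14 * K₁) (2 * Z)) : ℝ) ≤ Real.sqrt K₁ * z ^ (1 - 4 * η) := by
    have h1 := hPRB (14 * K₁) (2 * Z) D X ((1 + √5) / 4 - ε) (x ^ (1 / 10 : ℝ)) (by linarith)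
      (by linarith) (by positivity) hFew hJL
      (fun k hk0 hk1 => hDv k hk0 (hk1.trans hJL))
    push_cast at h1
    refine h1.trans ?_
    exact SET_num z K₁ D (x ^ (1 / 10 : ℝ)) ((1 + √5) / 4 - ε) η hz1 hη0 hη1 (by linarith)
      (by linarith) (by positivity) hk hk' hDz (by positivity) hB hz252 (by positivity)
  have hzK : z ^ (1 / 10 : ℝ) ≤ (K₁ : ℝ) := by
    have h1 : 2 * z ^ (1 / 10 : ℝ) ≤ z ^ s := by
      calc 2 * z ^ (1 / 10 : ℝ) ≤ z ^ (347 / 1000 : ℝ) * z ^ (1 / 10 : ℝ) :=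
            mul_le_mul_of_nonneg_right hz347 (by positivity)
        _ = z ^ (447 / 1000 : ℝ) := by rw [← Real.rpow_add hz0]; norm_num
        _ ≤ z ^ s := hzs
    linarith
  have hKZ : K₁ ≤ Z := by
    have h1 : (K₁ : ℝ) ≤ z := by
      calc (K₁ : ℝ) ≤ z ^ s := hk
        _ ≤ z ^ (1 : ℝ) := Real.rpow_le_rpow_of_exponent_le hz1 (by linarith)
        _ = z := Real.rpow_one z
    rw [hz] at h1
    exact Nat.cast_le.mp h1
  obtain ⟨R, hR, hRc⟩ := hU Z K₁ (by rw [hz] at hzZ; exact Nat.cast_le.mp hzZ) hzK hKZ hPQ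
  have hK₁0 : (0 : ℝ) < (K₁ : ℝ) := lt_of_lt_of_le (by positivity) hzK
  have hRne : R.Nonempty := by
    rw [← card_pos]
    have : (0 : ℝ) < (#R : ℝ) := lt_of_lt_of_le (by positivity) hRc
    exact_mod_cast this
  have hR1 : ∀ r ∈ R, 1 ≤ #(TT r (2 * Z)) := by
    intro r hr
    have h1 := (hR r hr).2.2.2
    have h2 : (0 : ℝ) < (#(TT r (2 * Z)) : ℝ) := lt_of_lt_of_le (by positivity) h1
    exact_mod_cast h2
  have hY₀ : Y₀ ≤ 2 * Z := by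
    have : (Y₀ : ℝ) ≤ ((2 * Z : ℕ) : ℝ) := by push_cast; linarith
    exact_mod_cast this
  obtain ⟨Y, τ, R', hR'R, hY1, hY2, hτ1, hRR', hR'⟩ := hP (2 * Z) R hY₀ hRne hR1
  push_cast at hY2 hRR'
  have hyz : 2 * z ≤ (Y : ℝ) := by
    have : ((2 * Z : ℕ) : ℝ) ≤ (Y : ℝ) := by exact_mod_cast hY1
    push_cast at this; exact this
  set y : ℝ := (Y : ℝ) with hy
  have hy1 : 1 ≤ y := by linarith
  have hzy : z ≤ y := by linarith
  have hy0 : 0 < y := by linarith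
  have hyz2 : y ≤ z ^ (1 + 2 * η) := SET_yz z y η hz1 hη0 (by linarith) hz4 hY2
  have hR'ne : R'.Nonempty := by
    rw [← card_pos]
    by_contra h0
    have h1 : #R' = 0 := by omega
    rw [h1] at hRR'
    have h2 : (0 : ℝ) < (#R : ℝ) := by exact_mod_cast hRne.card_pos
    simp only [Nat.cast_zero, zero_mul] at hRR'
    linarith
  have h14 : (14 : ℝ) ≤ z ^ δ := by
    have h1 : z ^ (δ - 2 * η) ≤ z ^ δ := Real.rpow_le_rpow_of_exponent_le hz1 (by linarith)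
    linarith
  refine ⟨Y, 14 * K₁, τ, B' + 1, R', hzx.trans hzy, ?_, ?_, ?_, ?_, by omega, ?_, ?_, ?_⟩
  · exact SET_g1 x z y δ η hx1 hz1 hη0 (by linarith) hzx' hx16 hY2
  · push_cast
    exact SET_g2 z y K₁ s δ η hz1 hy0 hη0 hδ (by linarith) (by linarith) (by linarith) hyz2 hk'
  · push_cast
    exact SET_g3 z y K₁ s δ hz1 hzy hδ (by linarith) h14 (by positivity) hk
  · push_cast
    calc (B' : ℝ) + 1 ≤ z ^ (δ - 2 * η) := hzB
      _ ≤ z ^ δ := Real.rpow_le_rpow_of_exponent_le hz1 (by linarith)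
      _ ≤ y ^ δ := Real.rpow_le_rpow hz0.le hzy hδ.le
  · obtain ⟨r, hr⟩ := hR'ne
    have h1 := (hR r (hR'R hr)).2.2.2
    have h2 : #(TT r (2 * Z)) ≤ B' * τ :=
      (SET_TT_mono r _ _ (hY1.trans (by omega))).trans (hR' r hr).2
    have h3 : (#(TT r (2 * Z)) : ℝ) ≤ (B' : ℝ) * τ := by exact_mod_cast h2
    exact SET_g5 z y B' _ τ δ η hz1 hy0 hη0 hδ (by linarith) hyz2 (by positivity) (by positivity)
      hzB h1 h3
  · intro r hr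
    obtain ⟨h1, h2, h3, -⟩ := hR r (hR'R hr)
    obtain ⟨h4, h5⟩ := hR' r hr
    refine ⟨h1, h2, h3, h4, h5.trans ?_⟩
    exact Nat.mul_le_mul_right _ (by omega)
  · push_cast
    exact SET_g7 z y K₁ _ _ δ η hz1 hzy hη0 (by linarith) hδ (by positivity) (by positivity)
      hz28 hRc hRR'

theorem SET (hUNI : UNI_stmt) (hPIG : PIG_stmt) (hPRB : PRB_stmt) : SET_stmt := by
  intro ε δ hε hε1 hδ
  obtain ⟨X₀, h⟩ := SET_small hUNI hPIG hPRB ε (min δ (1 / 100)) hε hε1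
    (lt_min hδ (by norm_num)) (min_le_right _ _)
  refine ⟨max X₀ 1, fun X hX hF => ?_⟩
  obtain ⟨Y, K, τ, Bc, R, h1, h2, h3, h4, h5, h6, h7, h8, h9⟩ :=
    h X ((le_max_left _ _).trans hX) hF
  have hX1 : (1 : ℝ) ≤ (X : ℝ) := by
    exact_mod_cast (le_max_right X₀ 1).trans hX
  have hY1 : (1 : ℝ) ≤ (Y : ℝ) := (Real.one_le_rpow hX1 (by norm_num)).trans h1
  have hd : min δ (1 / 100) ≤ δ := min_le_left _ _
  refine ⟨Y, K, τ, Bc, R, h1, h2.trans ?_, ?_, h4.trans ?_, h5.trans ?_, h6, ?_, h8, ?_⟩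
  · exact Real.rpow_le_rpow_of_exponent_le hX1 (by linarith)
  · exact (Real.rpow_le_rpow_of_exponent_le hY1 (by linarith)).trans h3
  · exact Real.rpow_le_rpow_of_exponent_le hY1 (by linarith)
  · exact Real.rpow_le_rpow_of_exponent_le hY1 hd
  · exact (Real.rpow_le_rpow_of_exponent_le hY1 (by linarith)).trans h7
  · refine le_trans (mul_le_mul_of_nonneg_left ?_ (by positivity)) h9
    exact Real.rpow_le_rpow_of_exponent_le hY1 (by linarith)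

end Pool.Agent.OG
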