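import Pool.Agent.helper7.EP.AllB
import Pool.Agent.helper87.OD.ID16
import Pool.Agent.helper11.OD.ODR
import Pool.Agent.helper66.OD.F5
import Pool.Agent.helper59.OD.V1
import Pool.Agent.helper46.OD.V5
import Pool.Agent.helper89.OD.V11
import Pool.Agent.helper33.OD.V16
import Pool.Agent.helper51.OD.SPL
import Pool.Agent.helper23.OD.JSY
import Pool.Agent.helper67.OD.TS
import Pool.Agent.helper24.OD.S7
import Pool.Agent.helper72.OD.R11
import Pool.Agent.helper62.OD.R5
import Pool.Agent.helper85.OG.COL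
import Pool.Agent.helper75.OG.CTR
import Pool.Agent.helper67.OG.E16
import Pool.Agent.helper70.OG.EXP
import Pool.Agent.helper3.OG.FST
import Pool.Agent.helper8.OG.GAM
import Pool.Agent.helper31.OG.HIT
import Pool.Agent.helper1.OG.LFT
import Pool.Agent.helper72.OG.MUL
import Pool.Agent.helper80.OG.ODI
import Pool.Agent.helper78.OG.PAR
import Pool.Agent.helper38.OG.PIG
import Pool.Agent.helper3.OG.PRB
import Pool.Agent.helper30.OG.RES
import Pool.Agent.helper27.OG.SEC
import Pool.Agent.helper97.OG.UNC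
import Pool.Agent.helper95.OG.UNI
import Pool.Agent.helper82.OG.SET

/-!
# Project og:, assembly
-/

set_option autoImplicit false

namespace Pool.Agent.OG

open Pool.Agent.EP

theorem all_ID16 : OD.ID16_stmt :=
  OD.ID16 (OD.ODR (OD.V16 FRO OD.V1) (OD.SPL WM) all_JW JN all_NEG) (OD.F5 all_JW JN all_NEG WM)
    (OD.V5 OD.V1 FRO) (OD.V16 FRO OD.V1) OD.JSY JN WM

theorem all_R5 : OD.R5_stmt := OD.R5 (OD.V5 OD.V1 FRO)
theorem all_R11 : OD.R11_stmt := OD.R11 OD.TS OD.S7 (OD.V11 OD.V1 FRO VTH)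
theorem all_E16 : E16_stmt := E16 all_ID16 all_R5 all_R11 JN
theorem all_UNI : UNI_stmt := UNI (UNC all_E16)
theorem all_PRB : PRB_stmt := PRB PAR
theorem all_SET : SET_stmt := SET all_UNI PIG all_PRB
theorem all_ODI : ODI_stmt := ODI all_IDK (LFT JN)
theorem all_SEC : SEC_stmt := SEC (HIT COL) all_ODI (MUL SQ)
theorem all_CTR : CTR_stmt := CTR all_SET all_SEC FST all_PRB (GAM EXP)
theorem all_RES : RES_stmt := RES all_CTR

end Pool.Agent.OG
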