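import Pool.Agent.helper7.EP.SpecB

/-!
# Project og:, the even values: golden ratio exponent in `[X^(3/5), X]` from RESB2
-/

set_option autoImplicit false

open Finset Filter

namespace Pool.Agent.OG

theorem EVN_ev (c e : ℝ) (he : 0 < e) : ∀ᶠ z : ℝ in atTop, c ≤ z ^ e :=
  (tendsto_rpow_atTop he).eventually_ge_atTop c

theorem EVN_small (h : Pool.Agent.EP.RESB2_stmt) (ε : ℝ) (hε : 0 < ε) (hε1 : ε ≤ 1 / 10) :
    ∃ X₀ : ℕ, ∀ X : ℕ, X₀ ≤ X → ∃ x : ℕ, (X : ℝ) ^ (3 / 5 : ℝ) ≤ x ∧ x ≤ X ∧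
      (x : ℝ) ^ ((1 + √5) / 4 - ε) ≤ (Pool.Agent.EP.sE x : ℝ) := by
  have h1 : (2.236 : ℝ) < √5 := by
    apply Real.lt_sqrt_of_sq_lt; norm_num
  have h2 : √5 < (2.237 : ℝ) := by
    rw [Real.sqrt_lt' (by norm_num)]; norm_num
  have h5 : √5 * √5 = 5 := Real.mul_self_sqrt (by norm_num)
  set φ : ℝ := (1 + √5) / 2 with hφ
  have hφ1 : (1.618 : ℝ) ≤ φ := by rw [hφ]; linarith
  have hφ2 : φ ≤ (1.6185 : ℝ) := by rw [hφ]; linarith
  have hφ0 : 0 < φ := by linarith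
  have hφinv : 1 / φ = φ - 1 := by
    rw [hφ]; field_simp; nlinarith
  set η : ℝ := ε / 4 with hη
  have hη0 : 0 < η := by positivity
  obtain ⟨X₁, hX₁⟩ := h η hη0
  have hev : ∀ᶠ x : ℝ in atTop, 1 ≤ x ∧ 2 ≤ x ^ (φ - 1) ∧ 2 ≤ x ^ (1 / 100 : ℝ) ∧
      2 * ((X₁ : ℝ) + 1) ≤ x ^ (φ - 1) ∧ 2 ≤ x ^ (ε - φ * η) := by
    have h3 : 0 < φ - 1 := by linarith
    have h4 : 0 < ε - φ * η := by rw [hη]; nlinarith
    exact (eventually_ge_atTop 1).and ((EVN_ev _ _ h3).and ((EVN_ev _ _ (by norm_num)).and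
      ((EVN_ev _ _ h3).and (EVN_ev _ _ h4))))
  obtain ⟨x₀, hx₀⟩ := eventually_atTop.mp hev
  refine ⟨⌈x₀⌉₊, fun X hX => ?_⟩
  obtain ⟨hx1, hxa, hxb, hxc, hxd⟩ := hx₀ (X : ℝ) ((Nat.le_ceil x₀).trans (by exact_mod_cast hX))
  have hx0 : (0 : ℝ) < (X : ℝ) := by linarith
  set Y : ℕ := ⌊(X : ℝ) ^ (φ - 1)⌋₊ with hY
  have hY1 : (Y : ℝ) ≤ (X : ℝ) ^ (φ - 1) := Nat.floor_le (by positivity)
  have hY2 : (X : ℝ) ^ (φ - 1) / 2 ≤ (Y : ℝ) := by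
    have h3 := Nat.lt_floor_add_one ((X : ℝ) ^ (φ - 1))
    have h4 : (X : ℝ) ^ (φ - 1) < (Y : ℝ) + 1 := h3
    linarith
  have hYX₁ : X₁ ≤ Y := by
    have : (X₁ : ℝ) ≤ (Y : ℝ) := by linarith
    exact_mod_cast this
  have hY3 : (1 : ℝ) ≤ (Y : ℝ) := by linarith
  have hYφ : (Y : ℝ) ^ φ ≤ (X : ℝ) := by
    calc (Y : ℝ) ^ φ ≤ ((X : ℝ) ^ (φ - 1)) ^ φ := Real.rpow_le_rpow (by positivity) hY1 hφ0.le
      _ = (X : ℝ) ^ ((φ - 1) * φ) := by rw [← Real.rpow_mul hx0.le]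
      _ = (X : ℝ) := by
          have : (φ - 1) * φ = 1 := by rw [← hφinv]; field_simp
          rw [this, Real.rpow_one]
  have hZ : (Y : ℝ) ^ (3 / 2 + η) ≤ (X : ℝ) := by
    refine le_trans (Real.rpow_le_rpow_of_exponent_le hY3 ?_) hYφ
    rw [hη]; linarith
  have he : (1 + √5) / 4 - ε = φ / 2 - ε := by rw [hφ]; ring
  rw [he]
  rcases hX₁ Y X hYX₁ hZ with h3 | h3
  · refine ⟨Y, ?_, ?_, ?_⟩
    · calc (X : ℝ) ^ (3 / 5 : ℝ) ≤ (X : ℝ) ^ (φ - 1) / 2 := by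
            rw [le_div_iff₀ (by norm_num)]
            calc (X : ℝ) ^ (3 / 5 : ℝ) * 2 ≤ (X : ℝ) ^ (3 / 5 : ℝ) * (X : ℝ) ^ (1 / 100 : ℝ) :=
                  mul_le_mul_of_nonneg_left hxb (by positivity)
              _ = (X : ℝ) ^ (3 / 5 + 1 / 100 : ℝ) := by rw [Real.rpow_add hx0]
              _ ≤ (X : ℝ) ^ (φ - 1) := Real.rpow_le_rpow_of_exponent_le hx1 (by linarith)
        _ ≤ (Y : ℝ) := hY2
    · have : (Y : ℝ) ≤ (X : ℝ) := by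
        calc (Y : ℝ) = (Y : ℝ) ^ (1 : ℝ) := (Real.rpow_one _).symm
          _ ≤ (Y : ℝ) ^ φ := Real.rpow_le_rpow_of_exponent_le hY3 (by linarith)
          _ ≤ X := hYφ
      exact_mod_cast this
    · calc (Y : ℝ) ^ (φ / 2 - ε) ≤ (Y : ℝ) ^ (φ * (1 / 2 - η)) := by
            apply Real.rpow_le_rpow_of_exponent_le hY3
            rw [hη]; nlinarith
        _ = ((Y : ℝ) ^ φ) ^ (1 / 2 - η) := by rw [← Real.rpow_mul (by positivity)]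
        _ ≤ (X : ℝ) ^ (1 / 2 - η) := by
            apply Real.rpow_le_rpow (by positivity) hYφ
            rw [hη]; linarith
        _ ≤ _ := h3
  · refine ⟨X, ?_, le_rfl, ?_⟩
    · calc (X : ℝ) ^ (3 / 5 : ℝ) ≤ (X : ℝ) ^ (1 : ℝ) :=
            Real.rpow_le_rpow_of_exponent_le hx1 (by norm_num)
        _ = (X : ℝ) := Real.rpow_one _
    · refine le_trans ?_ h3
      have h6 : 0 ≤ 1 / 2 - η := by rw [hη]; linarith
      have h7 : (X : ℝ) ^ φ / 2 ≤ (Y : ℝ) * X := by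
        have h8 : (X : ℝ) ^ φ = (X : ℝ) ^ (φ - 1) * X := by
          nth_rewrite 3 [← Real.rpow_one (X : ℝ)]
          rw [← Real.rpow_add hx0]; congr 1; ring
        rw [h8]
        have := mul_le_mul_of_nonneg_right hY2 hx0.le
        linarith
      calc (X : ℝ) ^ (φ / 2 - ε) ≤ (X : ℝ) ^ (φ * (1 / 2 - η)) / 2 := by
            rw [le_div_iff₀ (by norm_num)]
            calc (X : ℝ) ^ (φ / 2 - ε) * 2 ≤ (X : ℝ) ^ (φ / 2 - ε) * (X : ℝ) ^ (ε - φ * η) :=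
                  mul_le_mul_of_nonneg_left hxd (by positivity)
              _ = (X : ℝ) ^ (φ * (1 / 2 - η)) := by
                  rw [← Real.rpow_add hx0]; congr 1; ring
        _ ≤ (X : ℝ) ^ (φ * (1 / 2 - η)) / 2 ^ (1 / 2 - η) := by
            apply div_le_div_of_nonneg_left (by positivity) (by positivity)
            calc (2 : ℝ) ^ (1 / 2 - η) ≤ 2 ^ (1 : ℝ) :=
                  Real.rpow_le_rpow_of_exponent_le (by norm_num) (by linarith)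
              _ = 2 := Real.rpow_one _
        _ = ((X : ℝ) ^ φ / 2) ^ (1 / 2 - η) := by
            rw [Real.div_rpow (by positivity) (by norm_num), ← Real.rpow_mul hx0.le]
        _ ≤ ((Y : ℝ) * X) ^ (1 / 2 - η) := Real.rpow_le_rpow (by positivity) h7 h6

theorem EVN (h : Pool.Agent.EP.RESB2_stmt) : ∀ ε : ℝ, 0 < ε → ∃ X₀ : ℕ, ∀ X : ℕ, X₀ ≤ X →
    ∃ x : ℕ, (X : ℝ) ^ (3 / 5 : ℝ) ≤ x ∧ x ≤ X ∧
      (x : ℝ) ^ ((1 + √5) / 4 - ε) ≤ (Pool.Agent.EP.sE x : ℝ) := by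
  intro ε hε
  obtain ⟨X₀, h0⟩ := EVN_small h (min ε (1 / 10)) (lt_min hε (by norm_num)) (min_le_right _ _)
  refine ⟨max X₀ 1, fun X hX => ?_⟩
  obtain ⟨x, h1, h2, h3⟩ := h0 X ((le_max_left _ _).trans hX)
  have hX1 : (1 : ℝ) ≤ (X : ℝ) := by exact_mod_cast (le_max_right X₀ 1).trans hX
  have hx1 : (1 : ℝ) ≤ (x : ℝ) := (Real.one_le_rpow hX1 (by norm_num)).trans h1
  refine ⟨x, h1, h2, le_trans (Real.rpow_le_rpow_of_exponent_le hx1 ?_) h3⟩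
  have := min_le_left ε (1 / 10)
  linarith

end Pool.Agent.OG
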